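import Pool.Agent.SO.Neg
import Pool.Agent.SO.Pos

/-!
# Height three is the threshold for sphere orders

* Every finite poset without a chain of three elements is a sphere order.
* There is a finite poset with `2 ^ 48 + 2 ^ 25` elements and without a chain of four elements
  which is not a sphere order, and which has no representation by closed balls of any real inner
  product space.
-/

set_option autoImplicit false

namespace Pool.Agent.Results.MP_7ed772_co.HeightThreshold

/-- `X` is the inclusion order of closed Euclidean balls of positive radius in some `ℝ^d`,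
`d ≥ 1` (as in the problem file). -/
def IsSphereOrder (X : Type) [PartialOrder X] : Prop :=
  ∃ d : ℕ, 0 < d ∧
    ∃ (c : X → EuclideanSpace ℝ (Fin d)) (r : X → ℝ),
      (∀ x, 0 < r x) ∧
      ∀ x y : X, x ≤ y ↔ Metric.closedBall (c x) (r x) ⊆ Metric.closedBall (c y) (r y)

theorem result :
    -- finite posets without a chain of three elements are sphere orders
    (∀ (X : Type) [PartialOrder X] [Fintype X],
      (∀ x y z : X, ¬ (x < y ∧ y < z)) → IsSphereOrder X) ∧
    -- a finite poset without a chain of four elements that is not a sphere order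
    (∃ (X : Type) (_ : PartialOrder X) (_ : Fintype X),
      Fintype.card X = 2 ^ 48 + 2 ^ 25 ∧
      (∀ w x y z : X, ¬ (w < x ∧ x < y ∧ y < z)) ∧
      ¬ IsSphereOrder X ∧
      ∀ (E : Type) [NormedAddCommGroup E] [InnerProductSpace ℝ E] (c : X → E) (r : X → ℝ),
        (∀ x, 0 < r x) →
        ¬ ∀ x y : X, x ≤ y ↔ Metric.closedBall (c x) (r x) ⊆ Metric.closedBall (c y) (r y)) := by
  refine ⟨?_, ?_⟩
  · intro X _ _ h
    exact Pool.Agent.SO.height2 h
  · refine ⟨Pool.Agent.SO.Pt 24, inferInstance, inferInstance, ?_, Pool.Agent.SO.height3, ?_, ?_⟩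
    · rw [Pool.Agent.SO.card_Pt]
      norm_num
    · rintro ⟨d, _, c, r, hr, h⟩
      exact Pool.Agent.SO.not_rep (le_refl 24) c r hr h
    · intro E _ _ c r hr h
      exact Pool.Agent.SO.not_rep (le_refl 24) c r hr h

end Pool.Agent.Results.MP_7ed772_co.HeightThreshold
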