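import Pool.Agent.SO.Pos

/-!
# Layered posets are sphere orders

A finite poset with a level function `l` (strictly increasing along `<`) such that `l x + 2 ≤ l y`
forces `x < y` is the inclusion order of closed Euclidean balls in some dimension.
-/

set_option autoImplicit false

namespace Pool.Agent.Results.MP_7ed772_co.LayeredPosets

/-- `X` is the inclusion order of closed Euclidean balls of positive radius in some `ℝ^d`,
`d ≥ 1` (as in the problem file). -/
def IsSphereOrder (X : Type) [PartialOrder X] : Prop :=
  ∃ d : ℕ, 0 < d ∧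
    ∃ (c : X → EuclideanSpace ℝ (Fin d)) (r : X → ℝ),
      (∀ x, 0 < r x) ∧
      ∀ x y : X, x ≤ y ↔ Metric.closedBall (c x) (r x) ⊆ Metric.closedBall (c y) (r y)

theorem result (X : Type) [PartialOrder X] [Fintype X] (l : X → ℕ)
    (h1 : ∀ x y : X, x < y → l x < l y) (h2 : ∀ x y : X, l x + 2 ≤ l y → x < y) :
    IsSphereOrder X :=
  Pool.Agent.SO.layered l h1 h2

end Pool.Agent.Results.MP_7ed772_co.LayeredPosets
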